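import Pool.Agent.HSF47.Tab

/-!
# Partitions of the triples of seven points into `2`-designs: classification
-/

set_option autoImplicit false

namespace Pool.Agent.HSF47

open Finset

/-- The classes of the standard partitions. -/
def cls (t s : ℕ) : ℕ :=
  if t = 0 then (F0 >>> s) % 2
  else if t = 1 then ((F0 ||| F1) >>> s) % 2
  else (F0 >>> s) % 2 + 2 * ((F1 >>> s) % 2)

theorem mem_M7 : ∀ s, s < 128 → (s ∈ M7 ↔ (ofM 7 s).card = 3) := by
  decide +kernel

theorem M7_lt {s : ℕ} (h : s ∈ M7) : s < 128 := by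
  obtain ⟨x, hx, rfl⟩ := List.mem_map.1 h
  have h1 := List.all_eq_true.1 checkT x hx
  simp only [Bool.and_eq_true, Nat.blt_eq] at h1
  exact h1.1.1

theorem img_lt {g n s : ℕ} (h : img g n (2 ^ n - 1) = 2 ^ n - 1) : img g n s < 2 ^ n := by
  apply Nat.lt_pow_two_of_testBit
  intro j hj
  by_contra h1
  rw [Bool.not_eq_false, testBit_img] at h1
  obtain ⟨k, hk, -, h2⟩ := h1
  have h3 : (img g n (2 ^ n - 1)).testBit j = true :=
    (testBit_img _ _ _ _).2 ⟨k, hk, by rw [Nat.testBit_two_pow_sub_one]; simp [hk], h2⟩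
  rw [h, Nat.testBit_two_pow_sub_one] at h3
  simp at h3
  omega

theorem img_mem {g s : ℕ} (h : img g 7 127 = 127) (hs : s ∈ M7) : img g 7 s ∈ M7 := by
  have h' : img g 7 (2 ^ 7 - 1) = 2 ^ 7 - 1 := h
  obtain ⟨e, he⟩ := exists_perm h'
  rw [mem_M7 _ (img_lt h'), he, Finset.card_map]
  exact (mem_M7 s (M7_lt hs)).1 hs

theorem cv_pos {v : ℕ → Bool} {e : List ℕ} {s : ℕ} (hs : s ∈ e) (hv : v s = true) :
    1 ≤ cv v e := by
  induction e with
  | nil => exact absurd hs List.not_mem_nil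
  | cons a e ih =>
    rw [cv]
    rcases List.mem_cons.1 hs with rfl | h
    · rw [hv]
      simp
    · have := ih h
      omega

theorem cv_sum {α : Type*} [DecidableEq α] (col : ℕ → α) (C : Finset α) (e : List ℕ) :
    ∑ c ∈ C, cv (fun s => decide (s ∈ M7) && decide (col s = c)) e ≤ e.length := by
  induction e with
  | nil => simp [cv]
  | cons a e ih =>
    simp only [cv]
    rw [Finset.sum_add_distrib, List.length_cons]
    have h1 : ∑ c ∈ C, (decide (a ∈ M7) && decide (col a = c)).toNat ≤ 1 := by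
      have h2 : ∀ c ∈ C, (decide (a ∈ M7) && decide (col a = c)).toNat ≤
          if col a = c then 1 else 0 := by
        intro c _
        by_cases h : col a = c
        · rw [if_pos h]
          exact Bool.toNat_le _
        · rw [if_neg h]
          simp [h]
      refine (Finset.sum_le_sum h2).trans ?_
      rw [Finset.sum_ite_eq]
      split_ifs <;> omega
    omega

section

variable {α : Type*} [DecidableEq α] (col : ℕ → α) (lam : α → ℕ)

/-- The class of the colour `c`. -/
def vc (c : α) (s : ℕ) : Bool := decide (s ∈ M7) && decide (col s = c)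

theorem vc_true {c : α} {s : ℕ} (hs : s ∈ M7) : vc col c s = true ↔ col s = c := by
  simp [vc, hs]

variable (hl : ∀ c, ∀ x ∈ T7, ∀ e ∈ x.2, cv (vc col c) e = lam c)

include hl

theorem lam_search {leaf : ℕ → Bool} {c : α} {l : ℕ} (hc : lam c = l)
    (hgo : go l leaf T7 0 = true) :
    ∃ m', (∀ s, m'.testBit s = vc col c s) ∧ leaf m' = true := by
  refine go_sound T7 128 0 checkP ?_ ?_ ?_ ?_ hgo
  · intro x hx
    exact M7_lt (List.mem_map_of_mem (f := Prod.fst) hx)
  · intro s hs _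
    have h1 : s ∈ M7 := by
      by_contra h
      simp [vc, h] at hs
    obtain ⟨x, hx, h2⟩ := List.mem_map.1 h1
    exact ⟨x, hx, h2⟩
  · intro s
    rw [Nat.zero_testBit]
    by_cases h : s ∈ M7
    · have := M7_lt h
      simp [show ¬ 128 ≤ s by omega]
    · simp [vc, h]
  · intro x hx e he
    rw [hl c x hx e he, hc]

theorem lam_one {c : α} (hc : lam c = 1) : ∃ x ∈ LA, ∀ s, x.1.testBit s = vc col c s := by
  obtain ⟨m, hm, h⟩ := lam_search col lam hl hc search1
  obtain ⟨x, hx, h1⟩ := List.any_eq_true.1 h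
  rw [Nat.beq_eq] at h1
  exact ⟨x, hx, fun s => by rw [h1, hm]⟩

theorem lam_two {c : α} (hc : lam c = 2) : ∃ x ∈ LB, ∀ s, x.1.testBit s = vc col c s := by
  obtain ⟨m, hm, h⟩ := lam_search col lam hl hc search2
  obtain ⟨x, hx, h1⟩ := List.any_eq_true.1 h
  rw [Nat.beq_eq] at h1
  exact ⟨x, hx, fun s => by rw [h1, hm]⟩

theorem lam_pos {s : ℕ} (hs : s ∈ M7) : 1 ≤ lam (col s) := by
  obtain ⟨x, hx, rfl⟩ := List.mem_map.1 hs
  have h1 := List.all_eq_true.1 checkT x hx
  simp only [Bool.and_eq_true] at h1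
  obtain ⟨e, he, h2⟩ := List.any_eq_true.1 h1.2
  obtain ⟨s, hs', h3⟩ := List.any_eq_true.1 h2
  rw [Nat.beq_eq] at h3
  rw [← hl _ x hx e he]
  exact cv_pos hs' ((vc_true col (h3 ▸ hs)).2 (by rw [h3]))

theorem lam_sum (C : Finset α) : ∑ c ∈ C, lam c ≤ 5 := by
  obtain ⟨x, hx, e, he, h5⟩ : ∃ x ∈ T7, ∃ e ∈ x.2, e.length = 5 := by decide +kernel
  have h1 := cv_sum col C e
  rw [h5] at h1
  refine le_trans (Finset.sum_le_sum fun c _ => ?_) h1
  exact (hl c x hx e he).ge

omit hl in
theorem and_eq_zero {c d : α} (hcd : c ≠ d) {a b : ℕ} (ha : ∀ s, a.testBit s = vc col c s)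
    (hb : ∀ s, b.testBit s = vc col d s) : a &&& b = 0 := by
  apply Nat.eq_of_testBit_eq
  intro s
  rw [Nat.testBit_and, ha, hb, Nat.zero_testBit]
  by_contra h
  rw [Bool.not_eq_false, Bool.and_eq_true] at h
  simp only [vc, Bool.and_eq_true, decide_eq_true_eq] at h
  exact hcd (h.1.2.symm.trans h.2.2)

/-- Every partition of the triples into at least two `2`-designs is one of three. -/
theorem core (hne : ∃ s ∈ M7, ∃ s' ∈ M7, col s ≠ col s') :
    ∃ t g : ℕ, t < 3 ∧ img g 7 127 = 127 ∧ ∀ s ∈ M7, ∀ s' ∈ M7,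
      (col (img g 7 s) = col (img g 7 s') ↔ cls t s = cls t s') := by
  have two : ∀ c d, c ≠ d → lam c + lam d ≤ 5 := by
    intro c d hcd
    have h := lam_sum col lam hl {c, d}
    rwa [Finset.sum_pair hcd] at h
  have three : ∀ c d e, c ≠ d → c ≠ e → d ≠ e → lam c + (lam d + lam e) ≤ 5 := by
    intro c d e h1 h2 h3
    have h := lam_sum col lam hl {c, d, e}
    rwa [Finset.sum_insert (by simp [h1, h2]), Finset.sum_pair h3] at h
  have four : ∀ c d e f, c ≠ d → c ≠ e → c ≠ f → d ≠ e → d ≠ f → e ≠ f →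
      lam c + (lam d + (lam e + lam f)) ≤ 5 := by
    intro c d e f h1 h2 h3 h4 h5 h6
    have h := lam_sum col lam hl {c, d, e, f}
    rwa [Finset.sum_insert (by simp [h1, h2, h3]), Finset.sum_insert (by simp [h4, h5]),
      Finset.sum_pair h6] at h
  have pos : ∀ s ∈ M7, 1 ≤ lam (col s) := fun s hs => lam_pos col lam hl hs
  have bitc : ∀ (c : α) (a u : ℕ), (∀ s, a.testBit s = vc col c s) → u ∈ M7 →
      ((a >>> u) % 2 = 1 ↔ col u = c) := by
    intro c a u ha hu
    rw [shift_mod, ha u]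
    cases h : vc col c u
    · simp only [Bool.toNat_false, zero_ne_one, false_iff]
      intro h1
      rw [(vc_true col hu).2 h1] at h
      exact absurd h (by simp)
    · simp only [Bool.toNat_true, true_iff]
      exact (vc_true col hu).1 h
  have bit2 : ∀ a u : ℕ, (a >>> u) % 2 = 0 ∨ (a >>> u) % 2 = 1 := fun a u => by omega
  have one_disj : ∀ c d e, c ≠ d → c ≠ e → d ≠ e → lam c = 1 → lam d = 1 → lam e = 1 → False := by
    intro c d e h1 h2 h3 hc hd he
    obtain ⟨x, hx, hx'⟩ := lam_one col lam hl hc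
    obtain ⟨y, hy, hy'⟩ := lam_one col lam hl hd
    obtain ⟨z, hz, hz'⟩ := lam_one col lam hl he
    have h4 := List.all_eq_true.1 (List.all_eq_true.1 checkC2 x hx) y hy
    rw [and_eq_zero col h1 hx' hy'] at h4
    simp only [Nat.beq_refl, Bool.not_true, Bool.false_or] at h4
    obtain ⟨w, hw, h5⟩ := List.any_eq_true.1 h4
    rw [Nat.beq_eq] at h5
    have h6 := List.all_eq_true.1 (List.all_eq_true.1 (List.all_eq_true.1 checkC3 x hx) w hw) z hz
    rw [h5, and_eq_zero col h2 hx' hz', and_eq_zero col h3 hy' hz'] at h6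
    simp at h6
  have ab_disj : ∀ c d, c ≠ d → lam c = 1 → lam d = 2 → False := by
    intro c d h1 hc hd
    obtain ⟨x, hx, hx'⟩ := lam_one col lam hl hc
    obtain ⟨y, hy, hy'⟩ := lam_two col lam hl hd
    have h4 := List.all_eq_true.1 (List.all_eq_true.1 checkAB x hx) y hy
    rw [and_eq_zero col h1 hx' hy'] at h4
    simp at h4
  by_cases hone : ∃ s ∈ M7, lam (col s) = 1
  · obtain ⟨s₀, hs₀, hc⟩ := hone
    obtain ⟨c, hcd⟩ : ∃ c, c = col s₀ := ⟨_, rfl⟩
    rw [← hcd] at hc
    by_cases hA : ∀ s ∈ M7, ∀ s' ∈ M7, col s ≠ c → col s' ≠ c → col s = col s'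
    · -- type A
      obtain ⟨x, hx, hx'⟩ := lam_one col lam hl hc
      have h1 := List.all_eq_true.1 checkA x hx
      rw [Bool.and_eq_true, Nat.beq_eq] at h1
      refine ⟨0, x.2.1, by norm_num, h1.1, ?_⟩
      have h2 : ∀ s ∈ M7, (col (img x.2.1 7 s) = c ↔ (F0 >>> s) % 2 = 1) := by
        intro s hs
        have h3 := List.all_eq_true.1 h1.2 s hs
        rw [Nat.beq_eq] at h3
        rw [← h3, bitc c x.1 _ hx' (img_mem h1.1 hs)]
      intro s hs s' hs'
      have h4 := h2 s hs
      have h5 := h2 s' hs'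
      have h6 := hA _ (img_mem h1.1 hs) _ (img_mem h1.1 hs')
      simp only [cls, if_true]
      rcases bit2 F0 s with h7 | h7 <;> rcases bit2 F0 s' with h8 | h8 <;>
        rw [h7] at h4 ⊢ <;> rw [h8] at h5 ⊢ <;> simp at h4 h5 ⊢
      · exact h6 h4 h5
      · rw [h5]; exact h4
      · rw [h4]; exact fun h => h5 h.symm
      · rw [h4, h5]
    · push Not at hA
      obtain ⟨s₁, hs₁, s₂, hs₂, h1c, h2c, h12⟩ := hA
      -- some other class has `lam = 1`
      have h3 : ∃ s ∈ M7, col s ≠ c ∧ lam (col s) = 1 := by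
        by_contra hcon
        push Not at hcon
        have h4 := hcon s₁ hs₁ h1c
        have h5 := hcon s₂ hs₂ h2c
        have h6 := pos s₁ hs₁
        have h7 := pos s₂ hs₂
        have h8 := three c (col s₁) (col s₂) h1c.symm h2c.symm h12
        exact ab_disj c (col s₁) h1c.symm hc (by omega)
      obtain ⟨s₃, hs₃, h3c, h3l⟩ := h3
      obtain ⟨d, hd⟩ : ∃ d, d = col s₃ := ⟨_, rfl⟩
      rw [← hd] at h3c h3l
      have hrest : ∀ s ∈ M7, ∀ s' ∈ M7, col s ≠ c → col s ≠ d → col s' ≠ c → col s' ≠ d →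
          col s = col s' := by
        intro s hs s' hs' a1 a2 a3 a4
        by_contra h
        have h4 := four c d (col s) (col s') h3c.symm a1.symm a3.symm a2.symm a4.symm h
        have h5 := pos s hs
        have h6 := pos s' hs'
        rcases Nat.lt_or_ge (lam (col s)) 2 with h7 | h7
        · exact one_disj c d (col s) h3c.symm a1.symm a2.symm hc h3l (by omega)
        · exact one_disj c d (col s') h3c.symm a3.symm a4.symm hc h3l (by omega)
      obtain ⟨x, hx, hx'⟩ := lam_one col lam hl hc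
      obtain ⟨y, hy, hy'⟩ := lam_one col lam hl h3l
      have h4 := List.all_eq_true.1 (List.all_eq_true.1 checkC2 x hx) y hy
      rw [and_eq_zero col h3c.symm hx' hy'] at h4
      simp only [Nat.beq_refl, Bool.not_true, Bool.false_or] at h4
      obtain ⟨w, hw, h5⟩ := List.any_eq_true.1 h4
      rw [Nat.beq_eq] at h5
      have h1 := List.all_eq_true.1 (List.all_eq_true.1 checkC x hx) w hw
      rw [Bool.and_eq_true, Nat.beq_eq] at h1
      refine ⟨2, w.2, by norm_num, h1.1, ?_⟩
      have h2 : ∀ s ∈ M7, (col (img w.2 7 s) = c ↔ (F0 >>> s) % 2 = 1) ∧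
          (col (img w.2 7 s) = d ↔ (F1 >>> s) % 2 = 1) := by
        intro s hs
        have h3 := List.all_eq_true.1 h1.2 s hs
        rw [Bool.and_eq_true, Nat.beq_eq, Nat.beq_eq, h5] at h3
        rw [← h3.1, ← h3.2, bitc c x.1 _ hx' (img_mem h1.1 hs),
          bitc d y.1 _ hy' (img_mem h1.1 hs)]
        exact ⟨Iff.rfl, Iff.rfl⟩
      intro s hs s' hs'
      obtain ⟨a1, a2⟩ := h2 s hs
      obtain ⟨b1, b2⟩ := h2 s' hs'
      have h6 := hrest _ (img_mem h1.1 hs) _ (img_mem h1.1 hs')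
      have hcls : ∀ u, cls 2 u = (F0 >>> u) % 2 + 2 * ((F1 >>> u) % 2) := fun u => by
        simp [cls]
      rw [hcls, hcls]
      constructor
      · intro h
        rw [h] at a1 a2
        have e1 : (F0 >>> s) % 2 = 1 ↔ (F0 >>> s') % 2 = 1 := a1.symm.trans b1
        have e2 : (F1 >>> s) % 2 = 1 ↔ (F1 >>> s') % 2 = 1 := a2.symm.trans b2
        rcases bit2 F0 s with h7 | h7 <;> rcases bit2 F0 s' with h8 | h8 <;>
          rcases bit2 F1 s with h9 | h9 <;> rcases bit2 F1 s' with h10 | h10 <;>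
          rw [h7, h8] at e1 <;> rw [h9, h10] at e2 <;> simp at e1 e2 <;>
          rw [h7, h8, h9, h10]
      · intro h
        have e1 : (F0 >>> s) % 2 = (F0 >>> s') % 2 := by
          have := bit2 F0 s; have := bit2 F0 s'; have := bit2 F1 s; have := bit2 F1 s'; omega
        have e2 : (F1 >>> s) % 2 = (F1 >>> s') % 2 := by
          have := bit2 F0 s; have := bit2 F0 s'; have := bit2 F1 s; have := bit2 F1 s'; omega
        rw [e1] at a1
        rw [e2] at a2
        by_cases k1 : (F0 >>> s') % 2 = 1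
        · rw [a1.2 k1, b1.2 k1]
        · by_cases k2 : (F1 >>> s') % 2 = 1
          · rw [a2.2 k2, b2.2 k2]
          · exact h6 (fun k => k1 (a1.1 k)) (fun k => k2 (a2.1 k)) (fun k => k1 (b1.1 k))
              (fun k => k2 (b2.1 k))
  · push Not at hone
    have pos2 : ∀ s ∈ M7, 2 ≤ lam (col s) := by
      intro s hs
      have h1 := pos s hs
      have h2 := hone s hs
      omega
    -- type B
    have h3 : ∃ s ∈ M7, lam (col s) = 2 := by
      obtain ⟨s, hs, s', hs', h⟩ := hne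
      have h1 := two _ _ h
      have h4 := pos2 s hs
      have h5 := pos2 s' hs'
      by_cases h6 : lam (col s) = 2
      · exact ⟨s, hs, h6⟩
      · exact ⟨s', hs', by omega⟩
    obtain ⟨s₀, hs₀, hc⟩ := h3
    obtain ⟨c, hcd⟩ : ∃ c, c = col s₀ := ⟨_, rfl⟩
    rw [← hcd] at hc
    have hA : ∀ s ∈ M7, ∀ s' ∈ M7, col s ≠ c → col s' ≠ c → col s = col s' := by
      intro s hs s' hs' a1 a2
      by_contra h
      have h1 := three c (col s) (col s') a1.symm a2.symm h
      have h4 := pos2 s hs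
      have h5 := pos2 s' hs'
      omega
    obtain ⟨x, hx, hx'⟩ := lam_two col lam hl hc
    have h1 := List.all_eq_true.1 checkB x hx
    rw [Bool.and_eq_true, Nat.beq_eq] at h1
    refine ⟨1, x.2, by norm_num, h1.1, ?_⟩
    have h2 : ∀ s ∈ M7, (col (img x.2 7 s) = c ↔ ((F0 ||| F1) >>> s) % 2 = 1) := by
      intro s hs
      have h3 := List.all_eq_true.1 h1.2 s hs
      rw [Nat.beq_eq] at h3
      rw [← h3, bitc c x.1 _ hx' (img_mem h1.1 hs)]
    intro s hs s' hs'
    have h4 := h2 s hs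
    have h5 := h2 s' hs'
    have h6 := hA _ (img_mem h1.1 hs) _ (img_mem h1.1 hs')
    have hcls : ∀ u, cls 1 u = ((F0 ||| F1) >>> u) % 2 := fun u => by simp [cls]
    rw [hcls, hcls]
    rcases bit2 (F0 ||| F1) s with h7 | h7 <;> rcases bit2 (F0 ||| F1) s' with h8 | h8 <;>
      rw [h7] at h4 ⊢ <;> rw [h8] at h5 ⊢ <;> simp at h4 h5 ⊢
    · exact h6 h4 h5
    · rw [h5]; exact h4
    · rw [h4]; exact fun h => h5 h.symm
    · rw [h4, h5]

end

end Pool.Agent.HSF47
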