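import Pool.Agent.HSF98.Defs3
import Pool.Agent.HSF47.Core7

/-!
# Partitions of the triples of `Fin 7` into `2`-designs
-/

set_option autoImplicit false

namespace Pool.Agent.HSF47

open Finset

theorem cv_filter_map (v : ℕ → Bool) (q : ℕ → Bool) (f : ℕ → ℕ) (l : List ℕ) :
    cv v ((l.filter q).map f) = (l.filter (fun x => q x && v (f x))).length := by
  induction l with
  | nil => rfl
  | cons a l ih =>
    cases h : q a
    · rw [List.filter_cons_of_neg (by simp [h]), List.filter_cons_of_neg (by simp [h]), ih]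
    · rw [List.filter_cons_of_pos (by simp [h]), List.map_cons, cv, ih]
      cases h' : v (f a)
      · rw [List.filter_cons_of_neg (by simp [h']), Bool.toNat_false, zero_add]
      · rw [List.filter_cons_of_pos (by simp [h, h']), List.length_cons, Bool.toNat_true,
          add_comm]

theorem con_cv (v : ℕ → Bool) (n p : ℕ) : cv v (con n p) =
    (univ.filter (fun x : Fin n => p.testBit x = false ∧ v (p ||| 2 ^ (x : ℕ)) = true)).card := by
  rw [con, cv_filter_map, Finset.card_filter,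
    Fin.sum_univ_eq_sum_range (fun i => if p.testBit i = false ∧ v (p ||| 2 ^ i) = true
      then 1 else 0) n, ← Finset.card_filter]
  show _ = (List.filter (fun i => decide (p.testBit i = false ∧ v (p ||| 2 ^ i) = true))
    (List.range n)).length
  congr 1
  apply List.filter_congr
  intro x _
  cases p.testBit x <;> cases v (p ||| 2 ^ x) <;> rfl

theorem ofM_or (n p : ℕ) (x : Fin n) : ofM n (p ||| 2 ^ (x : ℕ)) = insert x (ofM n p) := by
  ext i
  rw [mem_insert, mem_ofM, mem_ofM, Nat.testBit_or, Nat.testBit_two_pow, Bool.or_eq_true,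
    decide_eq_true_eq, or_comm]
  refine or_congr_left ?_
  rw [Fin.ext_iff]
  exact eq_comm

/-- The number of sets of a class which contain a given set with one element less. -/
theorem cv_con {n : ℕ} {α : Type*} [DecidableEq α] (t : Finset (Fin n) → α) (c : α) (p k : ℕ)
    (hp : (ofM n p).card = k) (v : ℕ → Bool)
    (hv : ∀ x : Fin n, p.testBit x = false →
      (v (p ||| 2 ^ (x : ℕ)) = true ↔ t (insert x (ofM n p)) = c)) :
    cv v (con n p) = (univ.filter (fun A : Finset (Fin n) =>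
      A.card = k + 1 ∧ t A = c ∧ ofM n p ⊆ A)).card := by
  rw [con_cv]
  have hmem : ∀ x : Fin n, p.testBit x = false ↔ x ∉ ofM n p := by
    intro x
    rw [mem_ofM, Bool.not_eq_true]
  refine Finset.card_bij (fun x _ => insert x (ofM n p)) ?_ ?_ ?_
  · intro x hx
    obtain ⟨-, h1, h2⟩ := mem_filter.1 hx
    refine mem_filter.2 ⟨mem_univ _, ?_, (hv x h1).1 h2, subset_insert _ _⟩
    rw [card_insert_of_notMem ((hmem x).1 h1), hp]
  · intro x hx y hy hxy
    obtain ⟨-, h1, -⟩ := mem_filter.1 hx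
    have h2 : x ∈ insert y (ofM n p) := by
      rw [← hxy]
      exact mem_insert_self _ _
    rcases mem_insert.1 h2 with h | h
    · exact h
    · exact absurd h ((hmem x).1 h1)
  · intro A hA
    obtain ⟨-, h1, h2, h3⟩ := mem_filter.1 hA
    have h4 : (A \ ofM n p).card = 1 := by
      rw [card_sdiff_of_subset h3, h1, hp]
      omega
    obtain ⟨x, hx⟩ := card_eq_one.1 h4
    have h5 : x ∈ A \ ofM n p := by rw [hx]; exact mem_singleton_self _
    obtain ⟨h6, h7⟩ := mem_sdiff.1 h5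
    have h8 : insert x (ofM n p) = A := by
      rw [insert_eq, ← hx, sdiff_union_of_subset h3]
    exact ⟨x, mem_filter.2 ⟨mem_univ _, (hmem x).2 h7, (hv x ((hmem x).2 h7)).2 (h8.symm ▸ h2)⟩, h8⟩

theorem P7_pair : ∀ p ∈ P7, p < 128 ∧ (ofM 7 p).card = 2 ∧
    ∃ a b : Fin 7, a ≠ b ∧ ofM 7 p = {a, b} := by
  decide +kernel

theorem T7_cls : ∀ i : Fin 3, ∀ s ∈ M7, HSF98.T7 i (ofM 7 s) = cls i s := by
  decide +kernel

end Pool.Agent.HSF47

namespace Pool.Agent.HSF98

open Finset Pool.Agent.HSF47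

theorem D7 {r : ℕ} (t : Finset (Fin 7) → Fin r)
    (ht : ∀ (p : Fin r) (x y x' y' : Fin 7), x ≠ y → x' ≠ y' →
      (univ.filter (fun A : Finset (Fin 7) => A.card = 3 ∧ t A = p ∧ x ∈ A ∧ y ∈ A)).card =
      (univ.filter (fun A : Finset (Fin 7) => A.card = 3 ∧ t A = p ∧ x' ∈ A ∧ y' ∈ A)).card)
    (hs : ∃ A A' : Finset (Fin 7), A.card = 3 ∧ A'.card = 3 ∧ t A ≠ t A') :
    ∃ (s : Equiv.Perm (Fin 7)) (i : Fin 3), ∀ A A', A.card = 3 → A'.card = 3 →
      (t (act s A) = t (act s A') ↔ T7 i A = T7 i A') := by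
  obtain ⟨col, hcol⟩ : ∃ col : ℕ → Fin r, ∀ m, col m = t (ofM 7 m) := ⟨_, fun _ => rfl⟩
  obtain ⟨lam, hlam⟩ : ∃ lam : Fin r → ℕ, ∀ c, lam c =
    (univ.filter (fun A : Finset (Fin 7) => A.card = 3 ∧ t A = c ∧ 0 ∈ A ∧ 1 ∈ A)).card :=
    ⟨_, fun _ => rfl⟩
  have hM : ∀ A : Finset (Fin 7), A.card = 3 → toM A ∈ M7 := by
    intro A hA
    have h := toM_lt A
    rw [mem_M7 _ h, ofM_toM]
    exact hA
  have hl : ∀ c, ∀ x ∈ HSF47.T7, ∀ e ∈ x.2, cv (vc col c) e = lam c := by
    intro c x hx e he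
    have h1 := List.all_eq_true.1 checkT x hx
    simp only [Bool.and_eq_true] at h1
    have h2 := List.all_eq_true.1 h1.1.2 e he
    obtain ⟨p, hp, h3⟩ := List.any_eq_true.1 h2
    rw [decide_eq_true_eq] at h3
    obtain ⟨h4, h5, a, b, h6, h7⟩ := P7_pair p hp
    rw [h3, cv_con t c p 2 h5, hlam, ht c 0 1 a b (by decide) h6]
    · congr 1
      apply Finset.filter_congr
      intro A _
      rw [h7, insert_subset_iff, singleton_subset_iff]
    · intro x hx'
      have h8 : ofM 7 (p ||| 2 ^ (x : ℕ)) = insert x (ofM 7 p) := ofM_or 7 p x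
      have h9 : p ||| 2 ^ (x : ℕ) < 128 := by
        have : (2 : ℕ) ^ (x : ℕ) < 2 ^ 7 := Nat.pow_lt_pow_right (by norm_num) x.2
        exact Nat.or_lt_two_pow (n := 7) h4 this
      have h10 : p ||| 2 ^ (x : ℕ) ∈ M7 := by
        rw [mem_M7 _ h9, h8, card_insert_of_notMem, h5]
        rw [mem_ofM, hx']
        simp
      rw [vc_true col h10, hcol, h8]
  have hne : ∃ s ∈ M7, ∃ s' ∈ M7, col s ≠ col s' := by
    obtain ⟨A, A', h1, h2, h3⟩ := hs
    refine ⟨toM A, hM A h1, toM A', hM A' h2, ?_⟩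
    rwa [hcol, hcol, ofM_toM, ofM_toM]
  obtain ⟨i, g, hi, hg, h⟩ := core col lam hl hne
  have hg' : img g 7 (2 ^ 7 - 1) = 2 ^ 7 - 1 := hg
  obtain ⟨e, he⟩ := exists_perm hg'
  refine ⟨e, ⟨i, hi⟩, fun A A' hA hA' => ?_⟩
  have h1 := h (toM A) (hM A hA) (toM A') (hM A' hA')
  rw [hcol, hcol, he, he, ofM_toM, ofM_toM] at h1
  have h2 := T7_cls ⟨i, hi⟩ (toM A) (hM A hA)
  have h3 := T7_cls ⟨i, hi⟩ (toM A') (hM A' hA')
  rw [ofM_toM] at h2 h3
  rw [h2, h3]
  exact h1

end Pool.Agent.HSF98
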