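import Mathlib

/-!
# Subsets of `Fin n` as bit masks, permutations as octal numbers, and a search
-/

set_option autoImplicit false

namespace Pool.Agent.HSF47

open Finset

/-! ### Masks -/

/-- The subset of `Fin n` given by a bit mask. -/
def ofM (n m : ℕ) : Finset (Fin n) := univ.filter (fun i => m.testBit i = true)

theorem mem_ofM {n m : ℕ} {i : Fin n} : i ∈ ofM n m ↔ m.testBit i = true := by
  simp [ofM]

/-- The mask of a subset of `Fin n`. -/
def toM {n : ℕ} (A : Finset (Fin n)) : ℕ :=
  ∑ i : Fin n, if i ∈ A then 2 ^ (i : ℕ) else 0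

theorem testBit_sum {n : ℕ} (q : Fin n → Prop) [DecidablePred q] (j : ℕ) :
    (∑ i : Fin n, if q i then 2 ^ (i : ℕ) else 0).testBit j = true ↔
      ∃ h : j < n, q ⟨j, h⟩ := by
  induction n generalizing j with
  | zero => simp
  | succ n ih =>
    rw [Fin.sum_univ_castSucc]
    have hlt : (∑ i : Fin n, if q i.castSucc then 2 ^ ((i.castSucc : Fin (n + 1)) : ℕ) else 0) <
        2 ^ n := by
      have h1 : (∑ i : Fin n, if q i.castSucc then 2 ^ ((i.castSucc : Fin (n + 1)) : ℕ) else 0) ≤
          ∑ i : Fin n, 2 ^ (i : ℕ) :=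
        Finset.sum_le_sum fun i _ => by
          split_ifs
          · simp
          · exact Nat.zero_le _
      have h2 : ∑ i : Fin n, 2 ^ (i : ℕ) = 2 ^ n - 1 := by
        rw [Fin.sum_univ_eq_sum_range (fun i => 2 ^ i) n, Nat.geomSum_eq (le_refl 2)]
        simp
      have h3 : 0 < 2 ^ n := by positivity
      omega
    have h4 := ih (fun i => q i.castSucc) j
    simp only [Fin.val_castSucc] at h4 hlt ⊢
    by_cases hq : q (Fin.last n)
    · rw [if_pos hq, Fin.val_last, add_comm]
      rcases Nat.lt_trichotomy j n with h | h | h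
      · rw [Nat.testBit_two_pow_add_gt h, h4]
        exact ⟨fun ⟨h5, h6⟩ => ⟨by omega, h6⟩, fun ⟨h5, h6⟩ => ⟨h, h6⟩⟩
      · subst h
        rw [Nat.testBit_two_pow_add_eq, Nat.testBit_lt_two_pow hlt]
        simp only [Bool.not_false, true_iff]
        exact ⟨by omega, hq⟩
      · rw [Nat.testBit_lt_two_pow]
        · simp only [Bool.false_eq_true, false_iff]
          rintro ⟨h5, -⟩
          omega
        · calc _ < 2 ^ n + 2 ^ n := by omega
            _ = 2 ^ (n + 1) := by ring
            _ ≤ 2 ^ j := Nat.pow_le_pow_right (by norm_num) h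
    · rw [if_neg hq, add_zero, h4]
      constructor
      · rintro ⟨h5, h6⟩
        exact ⟨by omega, h6⟩
      · rintro ⟨h5, h6⟩
        rcases Nat.lt_or_ge j n with h | h
        · exact ⟨h, h6⟩
        · exfalso
          have h7 : j = n := by omega
          subst h7
          exact hq h6

theorem ofM_toM {n : ℕ} (A : Finset (Fin n)) : ofM n (toM A) = A := by
  ext i
  rw [mem_ofM, toM, testBit_sum]
  exact ⟨fun ⟨_, h⟩ => h, fun h => ⟨i.2, h⟩⟩

theorem toM_lt {n : ℕ} (A : Finset (Fin n)) : toM A < 2 ^ n := by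
  apply Nat.lt_pow_two_of_testBit
  intro j hj
  by_contra h
  rw [Bool.not_eq_false, toM, testBit_sum] at h
  obtain ⟨h1, -⟩ := h
  omega

/-! ### Permutations -/

/-- The image of the point `k`. -/
def dg (s k : ℕ) : ℕ := (s >>> (3 * k)) % 8

/-- The image of the mask `m` under the permutation `s` of the first `n` points. -/
def img (s : ℕ) : ℕ → ℕ → ℕ
  | 0, _ => 0
  | n + 1, m => (((m >>> n) % 2) <<< ((s >>> (3 * n)) % 8)) ||| img s n m

theorem shift_mod (m n : ℕ) : (m >>> n) % 2 = (m.testBit n).toNat := by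
  rw [Nat.toNat_testBit, Nat.shiftRight_eq_div_pow]

theorem testBit_img (s n m j : ℕ) :
    (img s n m).testBit j = true ↔ ∃ k, k < n ∧ m.testBit k = true ∧ dg s k = j := by
  induction n with
  | zero => simp [img]
  | succ n ih =>
    rw [img, Nat.testBit_or, Bool.or_eq_true, ih, shift_mod]
    have h : ((m.testBit n).toNat <<< ((s >>> (3 * n)) % 8)).testBit j = true ↔
        m.testBit n = true ∧ dg s n = j := by
      rw [Nat.testBit_shiftLeft, ← dg]
      cases hm : m.testBit n
      · simp
      · simp only [Bool.toNat_true, Bool.and_eq_true, decide_eq_true_eq, ge_iff_le, true_and]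
        rw [Nat.testBit_one_eq_true_iff_self_eq_zero]
        omega
    rw [h]
    constructor
    · rintro (⟨h1, h2⟩ | ⟨k, h1, h2, h3⟩)
      · exact ⟨n, by omega, h1, h2⟩
      · exact ⟨k, by omega, h2, h3⟩
    · rintro ⟨k, h1, h2, h3⟩
      rcases Nat.lt_or_ge k n with h4 | h4
      · exact Or.inr ⟨k, h4, h2, h3⟩
      · have h5 : k = n := by omega
        subst h5
        exact Or.inl ⟨h2, h3⟩

/-- A permutation from its code. -/
theorem exists_perm {n s : ℕ} (h : img s n (2 ^ n - 1) = 2 ^ n - 1) :
    ∃ e : Equiv.Perm (Fin n), ∀ m, ofM n (img s n m) = (ofM n m).map e.toEmbedding := by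
  have hd : ∀ k, k < n → dg s k < n := by
    intro k hk
    have h1 : (img s n (2 ^ n - 1)).testBit (dg s k) = true :=
      (testBit_img _ _ _ _).2 ⟨k, hk, by rw [Nat.testBit_two_pow_sub_one]; simp [hk], rfl⟩
    rw [h, Nat.testBit_two_pow_sub_one] at h1
    simpa using h1
  let f : Fin n → Fin n := fun i => ⟨dg s i, hd i i.2⟩
  have hf : Function.Surjective f := by
    intro j
    have h1 : (2 ^ n - 1).testBit j = true := by
      rw [Nat.testBit_two_pow_sub_one]; simp
    rw [← h] at h1
    obtain ⟨k, hk, -, h2⟩ := (testBit_img _ _ _ _).1 h1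
    exact ⟨⟨k, hk⟩, Fin.ext h2⟩
  refine ⟨Equiv.ofBijective f ⟨Finite.injective_iff_surjective.2 hf, hf⟩, fun m => ?_⟩
  ext j
  rw [mem_ofM, testBit_img, Finset.mem_map]
  constructor
  · rintro ⟨k, hk, h1, h2⟩
    exact ⟨⟨k, hk⟩, mem_ofM.2 h1, Fin.ext h2⟩
  · rintro ⟨i, h1, h2⟩
    exact ⟨i, i.2, mem_ofM.1 h1, congrArg Fin.val h2⟩

/-! ### The search -/

/-- The number of elements of the list in the mask. -/
def cn (m : ℕ) : List ℕ → ℕ
  | [] => 0
  | s :: e => (m >>> s) % 2 + cn m e

/-- The number of elements of the list below `t`. -/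
def rm (t : ℕ) : List ℕ → ℕ
  | [] => 0
  | s :: e => cond (Nat.blt s t) 1 0 + rm t e

/-- The number of elements of the list with `v`. -/
def cv (v : ℕ → Bool) : List ℕ → ℕ
  | [] => 0
  | s :: e => (v s).toNat + cv v e

/-- The check after the element `t`. -/
def chk (lam t m : ℕ) : List (List ℕ) → Bool
  | [] => true
  | e :: es => Nat.ble (cn m e) lam && (Nat.ble lam (cn m e + rm t e) && chk lam t m es)

/-- The search. -/
def go (lam : ℕ) (leaf : ℕ → Bool) : List (ℕ × List (List ℕ)) → ℕ → Bool
  | [], m => leaf m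
  | x :: T, m => (!(chk lam x.1 m x.2) || go lam leaf T m) &&
      (!(chk lam x.1 (m ||| 2 ^ x.1) x.2) || go lam leaf T (m ||| 2 ^ x.1))

theorem cn_eq {v : ℕ → Bool} {m t : ℕ} (h : ∀ s, m.testBit s = (decide (t ≤ s) && v s))
    (e : List ℕ) : cn m e ≤ cv v e ∧ cv v e ≤ cn m e + rm t e := by
  induction e with
  | nil => simp [cn, cv, rm]
  | cons s e ih =>
    obtain ⟨h1, h2⟩ := ih
    rw [cn, cv, rm, shift_mod, h s]
    by_cases hs : t ≤ s
    · have h3 : Nat.blt s t = false := by
        rw [Bool.eq_false_iff]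
        intro h4
        rw [Nat.blt_eq] at h4
        omega
      simp only [hs, decide_true, Bool.true_and, h3, cond_false]
      omega
    · have h3 : Nat.blt s t = true := by
        rw [Nat.blt_eq]
        omega
      have h4 : (v s).toNat ≤ 1 := Bool.toNat_le (v s)
      simp only [hs, decide_false, Bool.false_and, h3, cond_true, Bool.toNat_false]
      omega

theorem chk_true {v : ℕ → Bool} {m t lam : ℕ}
    (h : ∀ s, m.testBit s = (decide (t ≤ s) && v s)) (es : List (List ℕ))
    (he : ∀ e ∈ es, cv v e = lam) : chk lam t m es = true := by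
  induction es with
  | nil => rfl
  | cons e es ih =>
    obtain ⟨h1, h2⟩ := cn_eq h e
    rw [he e List.mem_cons_self] at h1 h2
    rw [chk, Nat.ble_eq_true_of_le h1, Nat.ble_eq_true_of_le h2,
      ih (fun e' he' => he e' (List.mem_cons_of_mem _ he'))]
    rfl

theorem go_sound {v : ℕ → Bool} {lam : ℕ} {leaf : ℕ → Bool} :
    ∀ (T : List (ℕ × List (List ℕ))) (b m : ℕ),
      List.Pairwise (fun x y : ℕ × List (List ℕ) => y.1 < x.1) T → (∀ x ∈ T, x.1 < b) →
      (∀ s, v s = true → s < b → ∃ x ∈ T, x.1 = s) →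
      (∀ s, m.testBit s = (decide (b ≤ s) && v s)) →
      (∀ x ∈ T, ∀ e ∈ x.2, cv v e = lam) → go lam leaf T m = true →
      ∃ m', (∀ s, m'.testBit s = v s) ∧ leaf m' = true := by
  intro T
  induction T with
  | nil =>
    intro b m _ _ hv hm _ hgo
    refine ⟨m, fun s => ?_, hgo⟩
    rw [hm s]
    cases hs : v s
    · simp
    · by_contra h
      simp only [Bool.and_true, decide_eq_true_eq, not_le] at h
      obtain ⟨x, hx, -⟩ := hv s hs h
      exact absurd hx List.not_mem_nil
  | cons x T ih =>
    intro b m hp hb hv hm he hgo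
    rw [List.pairwise_cons] at hp
    have hbx := hb x List.mem_cons_self
    rw [go, Bool.and_eq_true, Bool.or_eq_true, Bool.or_eq_true] at hgo
    have hv' : ∀ s, v s = true → s < x.1 → ∃ y ∈ T, y.1 = s := by
      intro s hs hxs
      obtain ⟨y, hy, hys⟩ := hv s hs (by omega)
      rcases List.mem_cons.1 hy with rfl | hy
      · omega
      · exact ⟨y, hy, hys⟩
    have hlow : ∀ s, x.1 < s → s < b → v s = false := by
      intro s h1 h2
      by_contra h3
      rw [Bool.not_eq_false] at h3
      obtain ⟨y, hy, hys⟩ := hv s h3 h2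
      rcases List.mem_cons.1 hy with rfl | hy
      · omega
      · have := hp.1 y hy
        omega
    have hnext : ∀ m' : ℕ, (∀ s, m'.testBit s = (decide (x.1 ≤ s) && v s)) →
        chk lam x.1 m' x.2 = true ∧ (go lam leaf T m' = true →
          ∃ m', (∀ s, m'.testBit s = v s) ∧ leaf m' = true) := by
      intro m' hm'
      refine ⟨chk_true hm' x.2 (he x List.mem_cons_self), fun hg => ?_⟩
      exact ih x.1 m' hp.2 (fun y hy => hp.1 y hy) hv' hm'
        (fun y hy => he y (List.mem_cons_of_mem _ hy)) hg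
    cases hx : v x.1
    · have hm' : ∀ s, m.testBit s = (decide (x.1 ≤ s) && v s) := by
        intro s
        rw [hm s]
        rcases Nat.lt_trichotomy s x.1 with h | h | h
        · simp [show ¬ b ≤ s by omega, show ¬ x.1 ≤ s by omega]
        · rw [h, hx]; simp
        · rcases Nat.lt_or_ge s b with h' | h'
          · rw [hlow s h h']; simp
          · simp [h', show x.1 ≤ s by omega]
      obtain ⟨h1, h2⟩ := hnext m hm'
      rcases hgo.1 with h3 | h3
      · rw [h1] at h3; simp at h3
      · exact h2 h3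
    · have hm' : ∀ s, (m ||| 2 ^ x.1).testBit s = (decide (x.1 ≤ s) && v s) := by
        intro s
        rw [Nat.testBit_or, hm s, Nat.testBit_two_pow]
        rcases Nat.lt_trichotomy s x.1 with h | h | h
        · simp [show ¬ b ≤ s by omega, show ¬ x.1 ≤ s by omega, show x.1 ≠ s by omega]
        · subst h; rw [hx]; simp
        · rcases Nat.lt_or_ge s b with h' | h'
          · rw [hlow s h h']; simp [show x.1 ≠ s by omega]
          · simp [h', show x.1 ≤ s by omega, show x.1 ≠ s by omega]
      obtain ⟨h1, h2⟩ := hnext _ hm'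
      rcases hgo.2 with h3 | h3
      · rw [h1] at h3; simp at h3
      · exact h2 h3

end Pool.Agent.HSF47
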